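import Pool.Agent.Q204.TJ.Main

set_option autoImplicit false

/-!
# The totalizing jump never distributes over the meet of incomparable problems

For every problem `f` the totalizing jump exists, and for Weihrauch-incomparable `f`, `g` one has
`tJ(f ⊓ g) <_W tJ(f) ⊓ tJ(g)`.
-/

namespace Pool.Agent.Results.MP_1d3aa8_lc.MeetStrict

open Q204.WD Q204.TJ

theorem result :
    (∀ f : Problem, ∃ F, IsTJ f F) ∧
    ∀ f g : Problem, ¬ WRed f g → ¬ WRed g f →
      ∀ F G M : Problem, IsTJ f F → IsTJ g G → IsTJ (meet f g) M →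
        WRed M (meet F G) ∧ ¬ WRed (meet F G) M := by
  refine ⟨fun f => ⟨_, isTJ_U f⟩, fun f g h1 h2 F G M hF hG hM => ⟨?_, ?_⟩⟩
  · apply le_meet
    · exact (hM.le.trans (le_U ((U_le _).trans (meet_le_left f g))).2).trans hF.ge
    · exact (hM.le.trans (le_U ((U_le _).trans (meet_le_right f g))).2).trans hG.ge
  · intro h
    have h3 : WRed (meet (T (U f)) (T (U g))) (meet F G) :=
      le_meet ((meet_le_left _ _).trans hF.ge) ((meet_le_right _ _).trans hG.ge)
    exact main2 ((U_le _).trans (meet_le_left f g)) ((U_le _).trans (meet_le_right f g)) h1 h2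
      ((h3.trans h).trans hM.le)

end Pool.Agent.Results.MP_1d3aa8_lc.MeetStrict
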